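import Pool.Agent.K1H40.SX.Nrm

/-! # Project SX, piece 5: cyclic cubic extensions

Owner helper40. -/

set_option autoImplicit false

namespace Pool.Agent.K1H40.SX

open NumberField Pool.Agent.K1H79.SX Pool.Agent.H471R2 Ideal Module
open scoped nonZeroDivisors

/-- the group theoretic part -/
theorem card_part {C : Type} [CommGroup C] [Finite C] (s : C ≃* C) (hs : ∀ c, s (s (s c)) = c)
    (T A : Subgroup C) (hT : ∀ c, c ∈ T ↔ c ^ 3 = 1) (hA : ∀ c, c ∈ A ↔ c ^ 3 = 1 ∧ s c = c)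
    {β : Type} [Finite β] (R : ∀ c ∈ T, ∃ b : β, True) (g : β → C)
    (hg : ∀ c ∈ T, ∃ b : β, g b = c * s c * s (s c)) :
    Nat.card T ≤ Nat.card β * (Nat.card A * Nat.card A) := by
  classical
  -- the norm
  let N : C →* C := (MonoidHom.id C * s.toMonoidHom) * (s.toMonoidHom.comp s.toMonoidHom)
  have hN : ∀ c, N c = c * s c * s (s c) := fun c => rfl
  let φ : T →* C := N.comp T.subtype
  have h1 : Nat.card T = Nat.card φ.ker * Nat.card φ.range := by
    rw [← Subgroup.index_ker, Subgroup.card_mul_index]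
  have h2 : Nat.card φ.range ≤ Nat.card β := by
    have h3 : ∀ y : φ.range, ∃ b : β, g b = y := by
      rintro ⟨y, c, rfl⟩
      obtain ⟨b, hb⟩ := hg c.1 c.2
      exact ⟨b, hb⟩
    choose f hf using h3
    refine Nat.card_le_card_of_injective f fun x y hxy => ?_
    apply Subtype.ext
    rw [← hf x, ← hf y, hxy]
  -- the map `c ↦ c / s c`
  let δ : C →* C := MonoidHom.id C / s.toMonoidHom
  have hδ : ∀ c, δ c = c / s c := fun c => rfl
  let ψ : φ.ker →* C := (δ.comp T.subtype).comp φ.ker.subtype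
  have h4 : Nat.card φ.ker = Nat.card ψ.ker * Nat.card ψ.range := by
    rw [← Subgroup.index_ker, Subgroup.card_mul_index]
  have h5 : Nat.card ψ.ker ≤ Nat.card A := by
    refine Nat.card_le_card_of_injective (fun x : ψ.ker => (⟨x.1.1.1, ?_⟩ : A)) ?_
    · rw [hA]
      refine ⟨(hT _).1 x.1.1.2, ?_⟩
      have h6 : x.1.1.1 / s x.1.1.1 = 1 := x.2
      exact (div_eq_one.1 h6).symm
    · intro x y hxy
      apply Subtype.ext
      apply Subtype.ext
      apply Subtype.ext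
      exact Subtype.mk.inj hxy
  have h7 : Nat.card ψ.range ≤ Nat.card A := by
    refine Nat.card_le_card_of_injective (fun x : ψ.range => (⟨x.1, ?_⟩ : A)) ?_
    · obtain ⟨x, c, rfl⟩ := x
      rw [hA]
      change (c.1.1 / s c.1.1) ^ 3 = 1 ∧ s (c.1.1 / s c.1.1) = c.1.1 / s c.1.1
      have e1 : c.1.1 ^ 3 = 1 := (hT _).1 c.1.2
      have e2 : c.1.1 * s c.1.1 * s (s c.1.1) = 1 := c.2
      have e3 : s c.1.1 ^ 3 = 1 := by rw [← map_pow, e1, map_one]
      refine ⟨by rw [div_pow, e1, e3, div_one], ?_⟩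
      rw [map_div]
      -- `s c / s² c = c / s c`
      have e4 : s (s c.1.1) = (c.1.1 * s c.1.1)⁻¹ := by
        rw [eq_inv_iff_mul_eq_one, mul_comm]; exact e2
      rw [e4, div_inv_eq_mul, div_eq_mul_inv]
      have e5 : (s c.1.1)⁻¹ = s c.1.1 * s c.1.1 := by
        rw [inv_eq_iff_mul_eq_one, ← mul_assoc, ← pow_three']
        exact e3
      rw [e5]
      rw [← mul_assoc, mul_comm (s c.1.1) c.1.1, mul_assoc]
    · intro x y hxy
      apply Subtype.ext
      exact Subtype.mk.inj hxy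
  rw [h1, h4, mul_comm]
  exact Nat.mul_le_mul h2 (Nat.mul_le_mul h5 h7)

theorem t_C3 : S_C3of := by
  intro hINV hAMB hRAM F L _ _ _ _ _ _ h3L
  classical
  obtain ⟨hfin, -, -⟩ := hRAM F L
  have hG : Nat.card (L ≃ₐ[F] L) = 3 := by rw [IsGalois.card_aut_eq_finrank, h3L]
  have hfinG : Finite (L ≃ₐ[F] L) := Nat.finite_of_card_ne_zero (by rw [hG]; norm_num)
  have hnt : Nontrivial (L ≃ₐ[F] L) := by
    rw [← Finite.one_lt_card_iff_nontrivial, hG]; norm_num
  obtain ⟨σ, hσ⟩ := exists_ne (1 : L ≃ₐ[F] L)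
  have hσ3 : σ ^ 3 = 1 := by rw [← hG]; exact pow_card_eq_one'
  have hσσ : σ * σ ≠ 1 := by
    intro h
    apply hσ
    calc σ = (σ * σ) * σ := by rw [h, one_mul]
      _ = σ ^ 3 := by rw [pow_three']
      _ = 1 := hσ3
  have hσσ' : σ * σ ≠ σ := by
    intro h
    exact hσ (mul_eq_left.1 h)
  have huniv : (Finset.univ : Finset (L ≃ₐ[F] L)) = {1, σ, σ * σ} := by
    symm
    apply Finset.eq_of_subset_of_card_le (Finset.subset_univ _)
    rw [Finset.card_univ, ← Nat.card_eq_fintype_card, hG, Finset.card_insert_of_notMem,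
      Finset.card_insert_of_notMem, Finset.card_singleton]
    · simp only [Finset.mem_singleton]
      exact fun h => hσσ' h.symm
    · simp only [Finset.mem_insert, Finset.mem_singleton, not_or]
      exact ⟨fun h => hσ h.symm, fun h => hσσ h.symm⟩
  have hrs : ∀ τ τ' : L ≃ₐ[F] L, rs (τ * τ') = rs τ * rs τ' := fun _ _ => rfl
  let s : ClassGroup (𝓞 L) ≃* ClassGroup (𝓞 L) := ca (rs σ)
  have hss : ∀ c, s (s c) = ca (rs (σ * σ)) c := fun c => by rw [hrs]; exact ca_mul _ _ _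
  have hsss : ∀ c, s (s (s c)) = c := by
    intro c
    change ca (rs σ) (ca (rs σ) (ca (rs σ) c)) = c
    rw [ca_mul, ca_mul]
    have h4 : rs σ * rs σ * rs σ = 1 := by
      have h5 : rs (σ * σ * σ) = rs (1 : L ≃ₐ[F] L) := by
        rw [← pow_three', hσ3]
      exact h5
    rw [h4]
    exact ca_one c
  let T : Subgroup (ClassGroup (𝓞 L)) := (powMonoidHom 3).ker
  have hT : ∀ c, c ∈ T ↔ c ^ 3 = 1 := fun c => Iff.rfl
  let A : Subgroup (ClassGroup (𝓞 L)) := T ⊓ (MonoidHom.id (ClassGroup (𝓞 L)) / s.toMonoidHom).ker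
  have hA : ∀ c, c ∈ A ↔ c ^ 3 = 1 ∧ s c = c := by
    intro c
    have h5 : c ∈ (MonoidHom.id (ClassGroup (𝓞 L)) / s.toMonoidHom).ker ↔ s c = c := by
      rw [MonoidHom.mem_ker]
      change c / s c = 1 ↔ s c = c
      rw [div_eq_one, eq_comm]
    rw [Subgroup.mem_inf, hT, h5]
  have hprod : ∀ c, ∏ τ : L ≃ₐ[F] L, ca (rs τ) c = c * s c * s (s c) := by
    intro c
    rw [huniv, Finset.prod_insert, Finset.prod_insert, Finset.prod_singleton, hss]
    · have h6 : ca (rs (1 : L ≃ₐ[F] L)) c = c := ca_one c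
      rw [h6, mul_assoc]
    · simp only [Finset.mem_singleton]
      exact fun h => hσσ' h.symm
    · simp only [Finset.mem_insert, Finset.mem_singleton, not_or]
      exact ⟨fun h => hσ h.symm, fun h => hσσ h.symm⟩
  have hmain := card_part s hsss T A hT hA (β := {b : ClassGroup (𝓞 F) // b ^ 3 = 1})
    (fun _ _ => ⟨⟨1, one_pow 3⟩, trivial⟩) (fun b => ClassGroup.extendedHom (𝓞 F) (𝓞 L) b.1)
    (fun c hc => by
      obtain ⟨b, hb1, hb2⟩ := exists_norm_class (F := F) 3 c ((hT c).1 hc)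
      exact ⟨⟨b, hb1⟩, by rw [← hprod]; exact hb2⟩)
  -- the fixed classes
  have hAfix : ∀ c ∈ A, c ^ 3 = 1 ∧ ∀ τ : L ≃ₐ[F] L, Fix (sg τ) c := by
    intro c hc
    obtain ⟨h5, h6⟩ := (hA c).1 hc
    refine ⟨h5, fun τ => ?_⟩
    rw [fix_iff]
    have h7 : τ ∈ ({1, σ, σ * σ} : Finset (L ≃ₐ[F] L)) := by rw [← huniv]; exact Finset.mem_univ _
    simp only [Finset.mem_insert, Finset.mem_singleton] at h7
    rcases h7 with rfl | rfl | rfl
    · exact ca_one c
    · exact h6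
    · rw [← hss, h6, h6]
  have h8 := hAMB F L h3L A hAfix
  have h9 := hINV F L hfin
  rw [h3L] at h9
  have h10 : Nat.card {c : ClassGroup (𝓞 L) // c ∈ A ∧ InvI F L c} ≤
      Nat.card {c : ClassGroup (𝓞 L) // c ^ 3 = 1 ∧ InvI F L c} := by
    refine Nat.card_le_card_of_injective (fun x => ⟨x.1, ((hA x.1).1 x.2.1).1, x.2.2⟩) ?_
    intro x y hxy
    exact Subtype.ext (Subtype.mk.inj hxy)
  have h11 : Nat.card A ≤ 3 ^ finrank ℚ F * (3 ^ Nat.card (RamS F L) * h3 F) :=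
    h8.trans (Nat.mul_le_mul_left _ (h10.trans h9))
  have h12 : h3 L = Nat.card T := rfl
  have h13 : h3 F = Nat.card {b : ClassGroup (𝓞 F) // b ^ 3 = 1} := rfl
  rw [h12]
  refine hmain.trans ?_
  rw [← h13]
  calc h3 F * (Nat.card A * Nat.card A)
      ≤ h3 F * ((3 ^ finrank ℚ F * (3 ^ Nat.card (RamS F L) * h3 F)) *
        (3 ^ finrank ℚ F * (3 ^ Nat.card (RamS F L) * h3 F))) := by gcongr
    _ = 3 ^ (2 * finrank ℚ F) * 3 ^ (2 * Nat.card (RamS F L)) * h3 F ^ 3 := by ring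

end Pool.Agent.K1H40.SX
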