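import Pool.Agent.K1H79.SX.Stm

/-! # Project SX, piece 6: the Galois closure of a cubic extension

Owner helper40. -/

set_option autoImplicit false

namespace Pool.Agent.K1H40.SX

open NumberField Pool.Agent.K1H79.SX IntermediateField Module

section
variable {F L M : Type} [Field F] [Field L] [Field M] [Algebra F L] [Algebra F M]

/-- the action on the embeddings -/
noncomputable def act : (M ≃ₐ[F] M) →* Equiv.Perm (L →ₐ[F] M) where
  toFun σ :=
    { toFun := fun f => (σ : M →ₐ[F] M).comp f
      invFun := fun f => (σ.symm : M →ₐ[F] M).comp f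
      left_inv := fun f => by ext x; simp
      right_inv := fun f => by ext x; simp }
  map_one' := by ext f x; rfl
  map_mul' σ τ := by ext f x; rfl

theorem perm_fact1 : ∀ τ : Equiv.Perm (Fin 3), τ * τ = 1 → τ ≠ 1 → Equiv.Perm.sign τ = -1 := by
  decide

theorem perm_fact2 : ∀ σ τ : Equiv.Perm (Fin 3), Equiv.Perm.sign σ = 1 → Equiv.Perm.sign τ = -1 →
    τ * σ * τ = σ⁻¹ := by
  decide

variable [Algebra L M] [IsScalarTower F L M]

theorem main [FiniteDimensional F L] [FiniteDimensional F M] [IsGalois F M] (h3 : finrank F L = 3)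
    (hng : ¬ IsGalois F L)
    (hgen : ∀ σ : M ≃ₐ[F] M, (∀ f : L →ₐ[F] M, (σ : M →ₐ[F] M).comp f = f) → σ = 1) :
    finrank L M = 2 ∧ ∃ A : Subgroup (M ≃ₐ[F] M), Nat.card A = 3 ∧ A.index = 2 ∧
      ∀ σ ∈ A, ∀ τ : M ≃ₐ[F] M, (∀ x : L, τ (algebraMap L M x) = algebraMap L M x) → τ ≠ 1 →
        τ * σ * τ = σ⁻¹ := by
  classical
  have hsepL : Algebra.IsSeparable F L := Algebra.isSeparable_tower_bot_of_isSeparable F L M
  have hcardX : Nat.card (L →ₐ[F] M) = 3 := by
    rw [AlgHom.natCard_of_splits F L M, h3]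
    intro x
    have h := Normal.splits (inferInstance : Normal F M) (algebraMap L M x)
    rwa [minpoly.algebraMap_eq (algebraMap L M).injective] at h
  have hfinX : Finite (L →ₐ[F] M) := Nat.finite_of_card_ne_zero (by rw [hcardX]; norm_num)
  obtain ⟨e⟩ : Nonempty ((L →ₐ[F] M) ≃ Fin 3) := by
    have := Fintype.ofFinite (L →ₐ[F] M)
    rw [Nat.card_eq_fintype_card] at hcardX
    exact ⟨Fintype.equivFinOfCardEq hcardX⟩
  -- the representation on `Fin 3`
  obtain ⟨ρ, hρ⟩ : ∃ ρ : (M ≃ₐ[F] M) →* Equiv.Perm (Fin 3), Function.Injective ρ := by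
    refine ⟨(e.permCongrHom : Equiv.Perm (L →ₐ[F] M) ≃* Equiv.Perm (Fin 3)).toMonoidHom.comp act, ?_⟩
    rw [MonoidHom.coe_comp]
    refine (e.permCongrHom).injective.comp ?_
    rw [injective_iff_map_eq_one]
    intro σ hσ
    apply hgen
    intro f
    have := congrArg (fun p => p f) hσ
    exact this
  have hfinG : Finite (M ≃ₐ[F] M) := Finite.of_injective ρ hρ
  have hG : Nat.card (M ≃ₐ[F] M) = finrank F M := IsGalois.card_aut_eq_finrank F M
  have hle : Nat.card (M ≃ₐ[F] M) ≤ 6 := by
    have h1 := Nat.card_le_card_of_injective ρ hρ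
    have h2 : Nat.card (Equiv.Perm (Fin 3)) = 6 := by
      rw [Nat.card_eq_fintype_card]; decide
    omega
  have htow : finrank F L * finrank L M = finrank F M := by
    have : FiniteDimensional L M := FiniteDimensional.right F L M
    exact Module.finrank_mul_finrank F L M
  have : FiniteDimensional L M := FiniteDimensional.right F L M
  have hpos : 0 < finrank L M := Module.finrank_pos
  have hne1 : finrank L M ≠ 1 := by
    intro h1
    apply hng
    -- `L ≃ M`
    have hbij : Function.Bijective (algebraMap L M) := by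
      refine ⟨(algebraMap L M).injective, ?_⟩
      intro y
      have hb : (⊥ : Subalgebra L M) = ⊤ := by
        rw [Subalgebra.bot_eq_top_iff_finrank_eq_one]; exact h1
      have hy : y ∈ (⊥ : Subalgebra L M) := by rw [hb]; trivial
      exact Algebra.mem_bot.1 hy
    exact IsGalois.of_algEquiv (AlgEquiv.ofBijective (IsScalarTower.toAlgHom F L M) hbij).symm
  have h2 : finrank L M = 2 := by
    rw [h3] at htow
    omega
  have h6 : Nat.card (M ≃ₐ[F] M) = 6 := by rw [hG, ← htow, h3, h2]
  refine ⟨h2, (Equiv.Perm.sign.comp ρ).ker, ?_⟩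
  -- an element of order two
  have hLM : IsGalois L M := IsGalois.tower_top_of_isGalois F L M
  have hcL : Nat.card (M ≃ₐ[L] M) = 2 := by rw [IsGalois.card_aut_eq_finrank L M, h2]
  -- sign of the elements fixing `L`
  have hsgn : ∀ τ : M ≃ₐ[F] M, (∀ x : L, τ (algebraMap L M x) = algebraMap L M x) → τ ≠ 1 →
      Equiv.Perm.sign (ρ τ) = -1 := by
    intro τ hτ hne
    apply perm_fact1
    · rw [← map_mul]
      obtain ⟨τ', hτ'⟩ : ∃ τ' : M ≃ₐ[L] M, ∀ x, τ' x = τ x :=
        ⟨{ τ.toRingEquiv with commutes' := hτ }, fun x => rfl⟩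
      have h1 : τ' ^ 2 = 1 := by rw [← hcL]; exact pow_card_eq_one'
      have h2 : τ * τ = 1 := by
        ext x
        have h3 := congrArg (fun g : M ≃ₐ[L] M => g x) h1
        simp only [sq, AlgEquiv.mul_apply, AlgEquiv.one_apply] at h3
        rw [hτ', hτ'] at h3
        simpa using h3
      rw [h2, map_one]
    · intro h
      exact hne (hρ (by rw [h, map_one]))
  obtain ⟨τ0, hτ0, hne0⟩ : ∃ τ : M ≃ₐ[F] M, (∀ x : L, τ (algebraMap L M x) = algebraMap L M x) ∧ τ ≠ 1 := by
    have hfin : Finite (M ≃ₐ[L] M) := Nat.finite_of_card_ne_zero (by rw [hcL]; norm_num)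
    have hnt : Nontrivial (M ≃ₐ[L] M) := by
      rw [← Finite.one_lt_card_iff_nontrivial, hcL]; norm_num
    obtain ⟨τ, hτ⟩ := exists_ne (1 : M ≃ₐ[L] M)
    refine ⟨τ.restrictScalars F, fun x => τ.commutes x, fun h => hτ ?_⟩
    ext x
    exact congrArg (fun g : M ≃ₐ[F] M => g x) h
  have hidx : (Equiv.Perm.sign.comp ρ).ker.index = 2 := by
    have h1 : Function.Surjective (Equiv.Perm.sign.comp ρ) := by
      intro u
      rcases Int.units_eq_one_or u with rfl | rfl
      · exact ⟨1, map_one _⟩
      · exact ⟨τ0, hsgn τ0 hτ0 hne0⟩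
    rw [Subgroup.index_ker, MonoidHom.range_eq_top.2 h1]
    simp
  refine ⟨?_, hidx, ?_⟩
  · have h1 := Subgroup.card_mul_index (Equiv.Perm.sign.comp ρ).ker
    rw [hidx, h6] at h1
    omega
  · intro σ hσ τ hτ hne
    apply hρ
    rw [map_mul, map_mul, map_inv]
    exact perm_fact2 _ _ (MonoidHom.mem_ker.1 hσ) (hsgn τ hτ hne)

end

theorem t_GAL : S_GAL := by
  intro F L _ _ _ _ _ h3 hng
  classical
  have hfd : FiniteDimensional F L := FiniteDimensional.of_finrank_pos (by rw [h3]; norm_num)
  have halg : Algebra.IsAlgebraic F (AlgebraicClosure L) := Algebra.IsAlgebraic.trans F L (AlgebraicClosure L)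
  have hnorm : Normal F (AlgebraicClosure L) := normal_iff.2 fun x =>
    ⟨(halg.isAlgebraic x).isIntegral, IsAlgClosed.splits _⟩
  let M : IntermediateField F (AlgebraicClosure L) := normalClosure F L (AlgebraicClosure L)
  have hMfd : FiniteDimensional F M := normalClosure.is_finiteDimensional F L _
  have hMn : Normal F M := normalClosure.normal F L _
  have hMg : IsGalois F M := ⟨⟩
  let _ : Algebra L M := normalClosure.algebra F L (AlgebraicClosure L)
  have hst : IsScalarTower F L M := by infer_instance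
  have hMnf : NumberField M := by
    have : CharZero M := inferInstance
    have : FiniteDimensional ℚ M := Module.Finite.trans F M
    exact ⟨⟩
  have hgen : ∀ σ : M ≃ₐ[F] M, (∀ f : L →ₐ[F] M, (σ : M →ₐ[F] M).comp f = f) → σ = 1 := by
    intro σ hσ
    let E : IntermediateField F M := IntermediateField.fixedField (Subgroup.zpowers σ)
    have hE : ∀ x : M, σ x = x → x ∈ E := by
      intro x hx
      rw [IntermediateField.mem_fixedField_iff]
      intro g hg
      have : Subgroup.zpowers σ ≤ MulAction.stabilizer (M ≃ₐ[F] M) x := by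
        rw [Subgroup.zpowers_le]
        exact hx
      exact this hg
    have hM : M ≤ E.map M.val := by
      refine normalClosure_le_iff.2 fun f => ?_
      rintro y ⟨x, rfl⟩
      have hf : f.fieldRange ≤ M := AlgHom.fieldRange_le_normalClosure f
      let f0 : L →ₐ[F] M := AlgHom.codRestrict f M.toSubalgebra fun x => hf ⟨x, rfl⟩
      have h0 : σ (f0 x) = f0 x := congrArg (fun g : L →ₐ[F] M => g x) (hσ f0)
      exact ⟨f0 x, hE _ h0, rfl⟩
    ext x
    obtain ⟨y, hy, hyx⟩ := hM x.2
    have hxy : y = x := Subtype.ext hyx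
    have h1 : σ y = y := (IntermediateField.mem_fixedField_iff _ _).1 hy σ (Subgroup.mem_zpowers σ)
    rw [hxy] at h1
    rw [h1]; rfl
  obtain ⟨h2, A, hA3, hA2, hrel⟩ := main (F := F) (L := L) (M := M) h3 hng hgen
  let F' : IntermediateField F M := IntermediateField.fixedField A
  have hF'M : finrank F' M = 3 := by rw [IntermediateField.finrank_fixedField_eq_card, hA3]
  have hF' : finrank F F' = 2 := by
    have h4 := Module.finrank_mul_finrank F F' M
    have h5 : finrank F L * finrank L M = finrank F M := by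
      have : FiniteDimensional L M := FiniteDimensional.right F L M
      exact Module.finrank_mul_finrank F L M
    rw [hF'M, ← h5, h3, h2] at h4
    omega
  have hF'nf : NumberField F' := by
    have : CharZero F' := inferInstance
    have : FiniteDimensional ℚ F' := Module.Finite.trans F F'
    exact ⟨⟩
  refine ⟨F', M, inferInstance, hF'nf, inferInstance, hMnf, inferInstance, inferInstance, inferInstance,
    inferInstance, hst, inferInstance, hMg, h3, hF', h2, hF'M, ?_⟩
  intro σ τ hτ x
  have hσA : σ.restrictScalars F ∈ A := by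
    rw [← IntermediateField.fixingSubgroup_fixedField A]
    intro y
    exact σ.commutes y
  have h1 := hrel _ hσA (τ.restrictScalars F) (fun x => τ.commutes x) (fun h => hτ (by
    ext x
    have := congrArg (fun g : M ≃ₐ[F] M => (g x : AlgebraicClosure L)) h
    exact this))
  have h4 := congrArg (fun g : M ≃ₐ[F] M => g x) h1
  exact h4

end Pool.Agent.K1H40.SX
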