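import Pool.Agent.K1H79.SX.Stm
import Pool.Agent.K1H69.Q3.MOM

/-! # Project SX, piece 9: assembly

Owner helper40. -/

set_option autoImplicit false

namespace Pool.Agent.K1H40.SX

open NumberField Pool.Agent.K1H79.SX Module

theorem discr_abs_ge (F : Type) [Field F] [NumberField F] : 1 ≤ (discr F).natAbs :=
  Nat.one_le_iff_ne_zero.2 (Int.natAbs_ne_zero.2 (discr_ne_zero F))

theorem discr_cast (F : Type) [Field F] [NumberField F] : |(discr F : ℝ)| = ((discr F).natAbs : ℝ) := by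
  rw [Nat.cast_natAbs]; push_cast; rfl

theorem t_GER : S_GERof := by
  intro hRAM hS3 hC3 hGAL hRAMC hDQ hTRIV m ε hε
  classical
  obtain ⟨C0, hC0, hC0'⟩ := hTRIV m
  obtain ⟨C1, hC1, hC1'⟩ := _root_.Pool.Agent.K1H69.Q3.fac_bound ((54 : ℝ) ^ m)
    (one_le_pow₀ (by norm_num)) 0 ε hε
  set C : ℝ := 4 ^ m + 3 + 3 ^ (2 * m) * C0 ^ 3 * C1 + 3 ^ (4 * m) * C0 ^ 2 * C1 with hC
  have p1 : (0 : ℝ) < 4 ^ m := by positivity
  have p2 : (0 : ℝ) < 3 ^ (2 * m) * C0 ^ 3 * C1 := by positivity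
  have p3 : (0 : ℝ) < 3 ^ (4 * m) * C0 ^ 2 * C1 := by positivity
  refine ⟨C, by positivity, fun F L _ _ _ _ _ hF hFL => ?_⟩
  obtain ⟨hfin, hcard, hprod⟩ := hRAM F L
  set d : ℝ := |(discr F : ℝ)| with hd
  set D : ℝ := |(discr L : ℝ)| with hD
  have hd1 : 1 ≤ d := by rw [hd, discr_cast]; exact_mod_cast discr_abs_ge F
  have hD1 : 1 ≤ D := by rw [hD, discr_cast]; exact_mod_cast discr_abs_ge L
  have hdpow : ∀ k : ℕ, k ≤ 3 → d ^ k ≤ d ^ C := by
    intro k hk
    rw [← Real.rpow_natCast]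
    refine Real.rpow_le_rpow_of_exponent_le hd1 ?_
    have : (k : ℝ) ≤ 3 := by exact_mod_cast hk
    linarith
  set t := Nat.card (RamS F L) with ht
  -- the factor `54 ^ t`
  have h54 : (54 : ℝ) ^ t ≤ C1 * D ^ ε := by
    have h1 := hC1' (discr L).natAbs (by have := discr_abs_ge L; omega)
    rw [pow_zero, mul_one, ← pow_mul] at h1
    rw [hF] at hcard
    refine le_trans (pow_le_pow_right₀ (by norm_num) hcard) ?_
    rw [hD, discr_cast]
    exact h1
  have hDe : 0 < D ^ ε := Real.rpow_pos_of_pos (by linarith) _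
  by_cases hg : IsGalois F L
  · left
    have h1 := hC3 F L hFL
    rw [hF] at h1
    have h2 : (h3 L : ℝ) ≤ 3 ^ (2 * m) * 3 ^ (2 * t) * (h3 F : ℝ) ^ 3 := by exact_mod_cast h1
    have h3' : (h3 F : ℝ) ≤ C0 * d := hC0' F hF
    have h4 : (3 : ℝ) ^ (2 * t) ≤ C1 * D ^ ε := by
      refine le_trans ?_ h54
      rw [pow_mul]
      exact pow_le_pow_left₀ (by norm_num) (by norm_num) _
    calc (h3 L : ℝ) ≤ 3 ^ (2 * m) * 3 ^ (2 * t) * (h3 F : ℝ) ^ 3 := h2
      _ ≤ 3 ^ (2 * m) * (C1 * D ^ ε) * (C0 * d) ^ 3 := by gcongr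
      _ = (3 ^ (2 * m) * C0 ^ 3 * C1) * D ^ ε * d ^ 3 := by ring
      _ ≤ C * D ^ ε * d ^ C := by
          have := hdpow 3 le_rfl
          gcongr
          linarith
  · right
    obtain ⟨F', M, _, _, _, _, _, _, _, _, hcfg⟩ := hGAL F L hFL hg
    obtain ⟨r1, r2, r3⟩ := hRAMC F L F' M hcfg
    have h1 := hS3 F L F' M hcfg
    obtain ⟨hst1, hst2, hgal, -, hFF', -, -, -⟩ := hcfg
    refine ⟨F', inferInstance, inferInstance, inferInstance, hFF', ?_, ?_⟩
    · -- the discriminant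
      have hfin' : (RamS F F').Finite := hfin.subset r2
      have h2 := hDQ F F' hFF' hfin'.toFinset (fun 𝔭 => hfin'.mem_toFinset)
      have h5 := hprod hfin'.toFinset (fun 𝔭 h𝔭 => r2 (hfin'.mem_toFinset.1 h𝔭))
      have h6 : (discr F').natAbs ≤ 4 ^ m * (discr F).natAbs ^ 2 * (discr L).natAbs := by
        rw [hF] at h2
        exact h2.trans (Nat.mul_le_mul_left _ h5)
      have h7 : ((discr F').natAbs : ℝ) ≤ 4 ^ m * ((discr F).natAbs : ℝ) ^ 2 * ((discr L).natAbs : ℝ) := by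
        exact_mod_cast h6
      rw [← discr_cast, ← discr_cast, ← discr_cast, ← hd, ← hD] at h7
      refine h7.trans ?_
      have := hdpow 2 (by norm_num)
      gcongr
      linarith
    · have hfr : finrank ℚ F' = 2 * m := by
        have := Module.finrank_mul_finrank ℚ F F'
        rw [hF, hFF'] at this
        omega
      have c1 : Nat.card (RamS F M) ≤ t := Nat.card_mono hfin r1
      have h2 : h3 L ≤ 3 ^ (4 * m) * 54 ^ t * h3 F ^ 2 * h3 F' := by
        refine h1.trans ?_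
        rw [hfr]
        have e1 : 3 ^ (2 * (2 * m)) * 6 ^ Nat.card (RamS F M) * 3 ^ Nat.card (RamS F' M) ≤
            3 ^ (4 * m) * 54 ^ t := by
          calc 3 ^ (2 * (2 * m)) * 6 ^ Nat.card (RamS F M) * 3 ^ Nat.card (RamS F' M)
              ≤ 3 ^ (2 * (2 * m)) * 6 ^ t * 3 ^ (2 * t) := by
                gcongr
                · norm_num
                · norm_num
            _ = 3 ^ (4 * m) * 54 ^ t := by
                rw [← mul_assoc, pow_mul 3 2 t, mul_assoc, ← mul_pow]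
                norm_num
        gcongr
      have h4 : (h3 L : ℝ) ≤ 3 ^ (4 * m) * 54 ^ t * (h3 F : ℝ) ^ 2 * (h3 F' : ℝ) := by exact_mod_cast h2
      have h3' : (h3 F : ℝ) ≤ C0 * d := hC0' F hF
      calc (h3 L : ℝ) ≤ 3 ^ (4 * m) * 54 ^ t * (h3 F : ℝ) ^ 2 * (h3 F' : ℝ) := h4
        _ ≤ 3 ^ (4 * m) * (C1 * D ^ ε) * (C0 * d) ^ 2 * (h3 F' : ℝ) := by gcongr
        _ = (3 ^ (4 * m) * C0 ^ 2 * C1) * D ^ ε * d ^ 2 * (h3 F' : ℝ) := by ring
        _ ≤ C * D ^ ε * d ^ C * (h3 F' : ℝ) := by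
            have := hdpow 2 (by norm_num)
            gcongr
            linarith

end Pool.Agent.K1H40.SX
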