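import Pool.Agent.K1H79.SX.Stm
import Pool.Agent.H471R2.Bq.Basic

/-! # Project SX: the product of the conjugates of an ideal in a relative Galois extension

Owner helper40. -/

set_option autoImplicit false

namespace Pool.Agent.K1H40.SX

open NumberField Pool.Agent.K1H79.SX Pool.Agent.H471R2 Ideal Module
open scoped nonZeroDivisors

section
variable {F L : Type} [Field F] [NumberField F] [Field L] [NumberField L] [Algebra F L]

/-- the automorphism over `ℚ` -/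
abbrev rs (σ : L ≃ₐ[F] L) : L ≃ₐ[ℚ] L := σ.restrictScalars ℚ

theorem sg_eq (σ : L ≃ₐ[F] L) : sg σ = ra (rs σ) := rfl

open Classical in
theorem intNorm_prod [IsGalois F L] (x : 𝓞 L) :
    algebraMap (𝓞 F) (𝓞 L) (Algebra.intNorm (𝓞 F) (𝓞 L) x) = ∏ σ : L ≃ₐ[F] L, ra (rs σ) x := by
  apply RingOfIntegers.ext
  have h1 : ((algebraMap (𝓞 F) (𝓞 L) (Algebra.intNorm (𝓞 F) (𝓞 L) x) : 𝓞 L) : L) =
      algebraMap F L (algebraMap (𝓞 F) F (Algebra.intNorm (𝓞 F) (𝓞 L) x)) := rfl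
  rw [h1, Algebra.algebraMap_intNorm (A := 𝓞 F) (K := F) (L := L) (B := 𝓞 L)]
  rw [Algebra.norm_eq_prod_automorphisms]
  have h2 : ((∏ σ : L ≃ₐ[F] L, ra (rs σ) x : 𝓞 L) : L) = ∏ σ : L ≃ₐ[F] L, σ (x : L) := by
    change algebraMap (𝓞 L) L (∏ σ : L ≃ₐ[F] L, ra (rs σ) x) = _
    rw [map_prod]
    rfl
  rw [h2]

open Classical in
/-- The product of the conjugates of an ideal comes from the base field. -/
theorem prod_ia_rel [IsGalois F L] (I : Ideal (𝓞 L)) :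
    ∏ σ : L ≃ₐ[F] L, ia (rs σ) I = (relNorm (𝓞 F) I).map (algebraMap (𝓞 F) (𝓞 L)) := by
  by_cases hI : I = ⊥
  · subst hI
    have h1 : ia (rs (1 : L ≃ₐ[F] L)) (⊥ : Ideal (𝓞 L)) = 0 := by
      change ia (1 : L ≃ₐ[ℚ] L) ⊥ = 0
      rw [ia_one]; rfl
    rw [Finset.prod_eq_zero (Finset.mem_univ 1) h1, relNorm_bot, Ideal.map_bot]
    rfl
  have hle : (relNorm (𝓞 F) I).map (algebraMap (𝓞 F) (𝓞 L)) ≤ ∏ σ : L ≃ₐ[F] L, ia (rs σ) I := by
    rw [map_relNorm, Ideal.span_le]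
    rintro _ ⟨x, hx, rfl⟩
    simp only [Function.comp_apply, SetLike.mem_coe]
    rw [intNorm_prod]
    exact Ideal.prod_mem_prod (fun σ _ => ra_mem_ia (rs σ) hx)
  obtain ⟨C, hC⟩ := Ideal.dvd_iff_le.2 hle
  have hn := congrArg Ideal.absNorm hC
  rw [map_mul, absNorm_algebraMap, absNorm_relNorm, map_prod] at hn
  simp only [absNorm_ia, Finset.prod_const, Finset.card_univ] at hn
  have hdeg : Module.finrank (𝓞 F) (𝓞 L) = Fintype.card (L ≃ₐ[F] L) := by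
    have h1 : Module.finrank (𝓞 F) (𝓞 L) = Module.finrank F L :=
      (IsFractionRing.finrank_eq (𝓞 F) F (𝓞 L) L).symm
    rw [h1, ← Nat.card_eq_fintype_card]
    exact (IsGalois.card_aut_eq_finrank F L).symm
  rw [hdeg] at hn
  have h0 : absNorm I ^ Fintype.card (L ≃ₐ[F] L) ≠ 0 := pow_ne_zero _ (by
    rwa [Ne, Ideal.absNorm_eq_zero_iff])
  have h1 : absNorm C = 1 := by
    have : absNorm I ^ Fintype.card (L ≃ₐ[F] L) * 1 = absNorm I ^ Fintype.card (L ≃ₐ[F] L) * absNorm C := by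
      rw [mul_one]; exact hn
    exact (Nat.eq_of_mul_eq_mul_left (Nat.pos_of_ne_zero h0) this).symm
  rw [Ideal.absNorm_eq_one_iff] at h1
  rw [hC, h1, mul_top]

/-- `Fix` in terms of the action on the class group -/
theorem fix_iff (σ : L ≃ₐ[F] L) (c : ClassGroup (𝓞 L)) : Fix (sg σ) c ↔ ca (rs σ) c = c := by
  constructor
  · intro h
    obtain ⟨I, hI, rfl⟩ := cl_surj c
    rw [ca_cl]
    exact h ⟨I, mem_nonZeroDivisors_iff_ne_zero.2 hI⟩ ⟨_, mem_nonZeroDivisors_iff_ne_zero.2 (ia_ne_bot _ hI)⟩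
      rfl rfl
  · intro h I J hI hJ
    rw [← hI] at h
    rw [← hI, ← h]
    exact (mulEquiv_mk0 _ I J hJ).symm

theorem ca_mul (σ τ : L ≃ₐ[ℚ] L) (c : ClassGroup (𝓞 L)) : ca σ (ca τ c) = ca (σ * τ) c := by
  obtain ⟨I, hI, rfl⟩ := cl_surj c
  rw [ca_cl, ca_cl, ca_cl]
  congr 1
  exact ia_ia σ τ I

theorem ca_one (c : ClassGroup (𝓞 L)) : ca (1 : L ≃ₐ[ℚ] L) c = c := by
  obtain ⟨I, hI, rfl⟩ := cl_surj c
  rw [ca_cl]
  congr 1
  exact ia_one I

open Classical in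
/-- the norm of a class killed by `n` comes from a class of `F` killed by `n` -/
theorem exists_norm_class [IsGalois F L] (n : ℕ) (c : ClassGroup (𝓞 L)) (hc : c ^ n = 1) :
    ∃ b : ClassGroup (𝓞 F), b ^ n = 1 ∧
      ClassGroup.extendedHom (𝓞 F) (𝓞 L) b = ∏ σ : L ≃ₐ[F] L, ca (rs σ) c := by
  obtain ⟨I, hI, rfl⟩ := cl_surj c
  have hR : relNorm (𝓞 F) I ≠ ⊥ := by rw [Ne, relNorm_eq_bot_iff]; exact hI
  refine ⟨cl (relNorm (𝓞 F) I) hR, ?_, ?_⟩
  · rcases Nat.eq_zero_or_pos n with rfl | hn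
    · simp
    have h1 : cl (I ^ n) (pow_ne_zero n hI) = 1 := by
      rw [← hc]
      unfold cl
      rw [← map_pow]
      rfl
    obtain ⟨x, hx, hx'⟩ := (cl_eq_one_iff _ _).1 h1
    have h2 : cl ((relNorm (𝓞 F) I) ^ n) (pow_ne_zero n hR) = cl (relNorm (𝓞 F) I) hR ^ n := by
      have h3 := (map_pow (ClassGroup.mk0 (R := 𝓞 F))
        ⟨relNorm (𝓞 F) I, mem_nonZeroDivisors_iff_ne_zero.2 hR⟩ n)
      exact h3
    rw [← h2, cl_eq_one_iff, ← map_pow, hx', relNorm_singleton]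
    refine ⟨_, ?_, rfl⟩
    rw [Ne, Algebra.intNorm_eq_zero]
    exact hx
  · have h1 : ClassGroup.extendedHom (𝓞 F) (𝓞 L) (cl (relNorm (𝓞 F) I) hR) =
        ClassGroup.mk0 ⟨∏ σ : L ≃ₐ[F] L, ia (rs σ) I, mem_nonZeroDivisors_iff_ne_zero.2
          (Finset.prod_ne_zero_iff.2 fun σ _ => ia_ne_bot _ hI)⟩ := by
      unfold cl
      rw [ClassGroup.extendedHom_mk0]
      congr 1
      apply Subtype.ext
      exact (prod_ia_rel I).symm
    rw [h1]
    have h2 : ∀ σ : L ≃ₐ[F] L, ca (rs σ) (cl I hI) = ClassGroup.mk0 ⟨ia (rs σ) I,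
        mem_nonZeroDivisors_iff_ne_zero.2 (ia_ne_bot _ hI)⟩ := fun σ => ca_cl _ _ _
    rw [Finset.prod_congr rfl fun σ _ => h2 σ, ← map_prod]
    congr 1
    apply Subtype.ext
    rw [Submonoid.coe_finsetProd]

end

end Pool.Agent.K1H40.SX
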